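import Mathlib

/-!
# The family of Kazhdan subsets of the integers is Borel

The proof describes the sets that are not Kazhdan sets through positive definite functions
`φ n = ⟪x, U ^ n x⟫`, which form a compact space, and the mean ergodic theorem.
-/

set_option autoImplicit false

open Filter Topology ComplexConjugate Set

namespace Pool.Agent.Results.MP_6f1842_lc.KazhdanBorel

/-- `Q` is a Kazhdan set of the integers: for some `ε > 0`, every unitary operator `U` on a complex
Hilbert space having a unit vector `x` with `sup_{n ∈ Q} ‖U ^ n x - x‖ < ε` has a nonzero fixed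
vector. -/
def IsKazhdan (Q : Set ℤ) : Prop :=
  ∃ ε : ℝ, 0 < ε ∧ ∀ (H : Type) [NormedAddCommGroup H] [InnerProductSpace ℂ H] [CompleteSpace H]
    (U : H ≃ₗᵢ[ℂ] H), (∃ x : H, ‖x‖ = 1 ∧ ∃ δ < ε, ∀ n ∈ Q, ‖(U ^ n) x - x‖ ≤ δ) →
      ∃ y : H, y ≠ 0 ∧ U y = y

/-- The subset of the integers coded by a point of `{0,1} ^ ℤ`. -/
def toSet (q : ℤ → Bool) : Set ℤ := {n | q n = true}

/-! ## Positive definite functions and the GNS construction -/

/-- The sesquilinear form of a function `φ`. -/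
noncomputable def form (φ : ℤ → ℂ) (f g : ℤ →₀ ℂ) : ℂ :=
  f.sum fun m a => g.sum fun n b => conj a * b * φ (n - m)

/-- Normalized positive definite functions. -/
structure IsPD (φ : ℤ → ℂ) : Prop where
  one : φ 0 = 1
  herm : ∀ n, φ (-n) = conj (φ n)
  pos : ∀ f : ℤ →₀ ℂ, 0 ≤ (form φ f f).re
  bound : ∀ n, ‖φ n‖ ≤ 1

lemma form_add_left (φ : ℤ → ℂ) (f g h : ℤ →₀ ℂ) : form φ (f + g) h = form φ f h + form φ g h := by
  unfold form
  rw [Finsupp.sum_add_index']
  · intro m
    simp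
  · intro m a b
    rw [← Finsupp.sum_add]
    refine Finsupp.sum_congr fun n _ => ?_
    rw [map_add]
    ring

lemma form_smul_left (φ : ℤ → ℂ) (c : ℂ) (f h : ℤ →₀ ℂ) : form φ (c • f) h = conj c * form φ f h := by
  unfold form
  rw [Finsupp.sum_smul_index (by intro m; simp), Finsupp.mul_sum]
  refine Finsupp.sum_congr fun m _ => ?_
  rw [Finsupp.mul_sum]
  refine Finsupp.sum_congr fun n _ => ?_
  rw [map_mul]
  ring

lemma form_conj {φ : ℤ → ℂ} (h : IsPD φ) (f g : ℤ →₀ ℂ) : conj (form φ g f) = form φ f g := by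
  unfold form
  rw [Finsupp.sum_comm]
  simp only [map_finsuppSum]
  refine Finsupp.sum_congr fun m _ => Finsupp.sum_congr fun n _ => ?_
  rw [map_mul, map_mul, Complex.conj_conj, ← h.herm]
  rw [show -(m - n) = n - m by ring]
  ring

/-- The pre-inner product defined by a positive definite function. -/
noncomputable abbrev core {φ : ℤ → ℂ} (h : IsPD φ) : PreInnerProductSpace.Core ℂ (ℤ →₀ ℂ) where
  inner f g := form φ f g
  conj_inner_symm f g := form_conj h f g
  re_inner_nonneg f := h.pos f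
  add_left f g k := form_add_left φ f g k
  smul_left f g c := form_smul_left φ c f g

/-- The shift of finitely supported functions. -/
noncomputable def shift : (ℤ →₀ ℂ) ≃ₗ[ℂ] (ℤ →₀ ℂ) := Finsupp.domLCongr (Equiv.addRight (1 : ℤ))

lemma shift_single (n : ℤ) (a : ℂ) : shift (Finsupp.single n a) = Finsupp.single (n + 1) a := by
  unfold shift
  rw [Finsupp.domLCongr_single]
  rfl

lemma form_single (φ : ℤ → ℂ) (m n : ℤ) (a b : ℂ) :
    form φ (Finsupp.single m a) (Finsupp.single n b) = conj a * b * φ (n - m) := by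
  unfold form
  rw [Finsupp.sum_single_index, Finsupp.sum_single_index]
  · simp
  · simp

lemma form_shift (φ : ℤ → ℂ) (f g : ℤ →₀ ℂ) : form φ (shift f) (shift g) = form φ f g := by
  unfold form shift
  simp only [Finsupp.domLCongr_apply, Finsupp.domCongr_apply]
  rw [Finsupp.sum_equivMapDomain]
  refine Finsupp.sum_congr fun m _ => ?_
  rw [Finsupp.sum_equivMapDomain]
  refine Finsupp.sum_congr fun n _ => ?_
  simp

/-- The GNS construction for positive definite functions on the integers. -/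
theorem gns {φ : ℤ → ℂ} (h : IsPD φ) : ∃ (H : Type) (_ : NormedAddCommGroup H)
    (_ : InnerProductSpace ℂ H) (_ : CompleteSpace H) (U : H ≃ₗᵢ[ℂ] H) (x : H),
    ∀ n : ℤ, inner ℂ x ((U ^ n) x) = φ n := by
  let c : PreInnerProductSpace.Core ℂ (ℤ →₀ ℂ) := core h
  let _ : SeminormedAddCommGroup (ℤ →₀ ℂ) :=
    InnerProductSpace.Core.toSeminormedAddCommGroup (𝕜 := ℂ)
  let _ : InnerProductSpace ℂ (ℤ →₀ ℂ) := .ofCore c
  have hinner : ∀ f g : ℤ →₀ ℂ, inner ℂ f g = form φ f g := fun f g => rfl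
  let e : (ℤ →₀ ℂ) →ₗ[ℂ] UniformSpace.Completion (ℤ →₀ ℂ) :=
    (UniformSpace.Completion.toComplL (𝕜 := ℂ) : (ℤ →₀ ℂ) →L[ℂ] UniformSpace.Completion (ℤ →₀ ℂ))
  have he : ∀ f, e f = (f : UniformSpace.Completion (ℤ →₀ ℂ)) := fun f => rfl
  have hdense : DenseRange e := UniformSpace.Completion.denseRange_coe
  have hnorm : ∀ f, ‖e (shift f)‖ = ‖e f‖ := by
    intro f
    rw [he, he, UniformSpace.Completion.norm_coe, UniformSpace.Completion.norm_coe]
    rw [@norm_eq_sqrt_re_inner ℂ, @norm_eq_sqrt_re_inner ℂ, hinner, hinner, form_shift]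
  let U := shift.extendOfIsometry e e hdense hdense hnorm
  have hU : ∀ f, U (e f) = e (shift f) := fun f => by
    exact LinearMap.extendOfNorm_eq hdense ⟨1, fun x => by
      rw [one_mul]; exact (hnorm x).le⟩ f
  refine ⟨UniformSpace.Completion (ℤ →₀ ℂ), inferInstance, inferInstance, inferInstance, U,
    e (Finsupp.single 0 1), ?_⟩
  have hpow : ∀ n : ℤ, (U ^ n) (e (Finsupp.single 0 1)) = e (Finsupp.single n 1) := by
    intro n
    induction n using Int.induction_on with
    | zero => rfl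
    | succ n ih =>
      rw [add_comm, zpow_one_add]
      change U ((U ^ (n : ℤ)) (e (Finsupp.single 0 1))) = _
      rw [ih, hU, shift_single, add_comm]
    | pred n ih =>
      have h1 : U ^ (-(n : ℤ)) = U * U ^ (-(n : ℤ) - 1) := by
        rw [← zpow_one_add]
        congr 1
        ring
      have h2 : U ((U ^ (-(n : ℤ) - 1)) (e (Finsupp.single 0 1))) =
          U (e (Finsupp.single (-(n : ℤ) - 1) 1)) := by
        rw [hU, shift_single, sub_add_cancel, ← ih, h1]
        rfl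
      exact U.injective h2
  intro n
  rw [hpow, he, he, UniformSpace.Completion.inner_coe, hinner, form_single]
  simp

/-! ## Positive definite functions of unitary operators -/

section Unitary

variable {H : Type} [NormedAddCommGroup H] [InnerProductSpace ℂ H]

/-- The function `n ↦ ⟪x, U ^ n x⟫`. -/
noncomputable def coef (U : H ≃ₗᵢ[ℂ] H) (x : H) (n : ℤ) : ℂ := inner ℂ x ((U ^ n) x)

lemma coef_sub (U : H ≃ₗᵢ[ℂ] H) (x : H) (n m : ℤ) :
    coef U x (n - m) = inner ℂ ((U ^ m) x) ((U ^ n) x) := by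
  unfold coef
  rw [← LinearIsometryEquiv.inner_map_map (U ^ m) x]
  congr 1
  change (U ^ m * U ^ (n - m)) x = (U ^ n) x
  rw [← zpow_add, add_sub_cancel]

lemma isPD_coef (U : H ≃ₗᵢ[ℂ] H) {x : H} (hx : ‖x‖ = 1) : IsPD (coef U x) := by
  refine ⟨?_, ?_, ?_, ?_⟩
  · unfold coef
    rw [zpow_zero]
    change inner ℂ x x = (1 : ℂ)
    rw [inner_self_eq_norm_sq_to_K, hx]
    norm_num
  · intro n
    have h1 := coef_sub U x 0 n
    rw [zero_sub] at h1
    rw [h1]
    unfold coef
    rw [inner_conj_symm]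
    rfl
  · intro f
    have h1 : form (coef U x) f f = inner ℂ (f.sum fun n a => a • (U ^ n) x)
        (f.sum fun n a => a • (U ^ n) x) := by
      rw [Finsupp.sum_inner]
      unfold form
      refine Finsupp.sum_congr fun m _ => ?_
      rw [Finsupp.inner_sum]
      refine Finsupp.sum_congr fun n _ => ?_
      rw [coef_sub, inner_smul_left, inner_smul_right]
      ring
    rw [h1]
    exact inner_self_nonneg (𝕜 := ℂ)
  · intro n
    unfold coef
    refine (norm_inner_le_norm _ _).trans ?_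
    rw [LinearIsometryEquiv.norm_map, hx, one_mul]

lemma norm_sub_sq_coef (U : H ≃ₗᵢ[ℂ] H) {x : H} (hx : ‖x‖ = 1) (n : ℤ) :
    ‖(U ^ n) x - x‖ ^ 2 = 2 - 2 * (coef U x n).re := by
  rw [@norm_sub_sq ℂ, LinearIsometryEquiv.norm_map, hx]
  have h1 : RCLike.re (inner ℂ ((U ^ n) x) x) = (coef U x n).re := by
    rw [inner_re_symm]; rfl
  rw [h1]
  ring

/-- The double sum of a function `φ`. -/
noncomputable def dsum (φ : ℤ → ℂ) (N : ℕ) : ℝ :=
  ∑ m ∈ Finset.range N, ∑ n ∈ Finset.range N, (φ ((n : ℤ) - m)).re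

lemma norm_sum_sq (U : H ≃ₗᵢ[ℂ] H) (x : H) (N : ℕ) :
    ‖∑ n ∈ Finset.range N, (U ^ (n : ℤ)) x‖ ^ 2 = dsum (coef U x) N := by
  rw [← @inner_self_eq_norm_sq ℂ, sum_inner]
  unfold dsum
  rw [map_sum]
  refine Finset.sum_congr rfl fun m _ => ?_
  rw [inner_sum, map_sum]
  refine Finset.sum_congr rfl fun n _ => ?_
  rw [coef_sub]
  rfl

lemma exists_small_average [CompleteSpace H] (U : H ≃ₗᵢ[ℂ] H) (x : H)
    (hfix : ∀ y : H, U y = y → y = 0) :
    ∃ N : ℕ, dsum (coef U x) (N + 1) ≤ ((N : ℝ) + 1) ^ 2 / 2 := by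
  let f : H →L[ℂ] H := (U.toContinuousLinearEquiv : H →L[ℂ] H)
  have hf : ‖f‖ ≤ 1 := f.opNorm_le_bound zero_le_one fun y => by
    rw [one_mul]; exact (U.norm_map y).le
  have h := ContinuousLinearMap.tendsto_birkhoffAverage_orthogonalProjection f hf x
  have h0 : (((f.eqLocus (1 : H →L[ℂ] H)).orthogonalProjectionOnto x :
      f.eqLocus (1 : H →L[ℂ] H)) : H) = 0 :=
    hfix _ ((f.eqLocus (1 : H →L[ℂ] H)).orthogonalProjectionOnto x).2
  rw [h0] at h
  have h2 := (Metric.tendsto_atTop.1 h (1 / 2) (by norm_num))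
  obtain ⟨N, hN⟩ := h2
  refine ⟨N, ?_⟩
  have h3 := hN (N + 1) (Nat.le_succ N)
  rw [dist_zero_right] at h3
  have h4 : birkhoffAverage ℂ f _root_.id (N + 1) x =
      ((N + 1 : ℕ) : ℂ)⁻¹ • ∑ n ∈ Finset.range (N + 1), (U ^ (n : ℤ)) x := by
    unfold birkhoffAverage birkhoffSum
    congr 1
    refine Finset.sum_congr rfl fun n _ => ?_
    rw [zpow_natCast]
    have h5 : ∀ k : ℕ, f^[k] x = (U ^ k) x := by
      intro k
      induction k with
      | zero => rfl
      | succ k ih =>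
        rw [Function.iterate_succ_apply', ih, pow_succ']
        rfl
    exact h5 n
  rw [h4, norm_smul, norm_inv, Complex.norm_natCast] at h3
  rw [← norm_sum_sq]
  have hpos : (0 : ℝ) < ((N + 1 : ℕ) : ℝ) := by positivity
  have h6 : ‖∑ n ∈ Finset.range (N + 1), (U ^ (n : ℤ)) x‖ ≤ 1 / 2 * ((N + 1 : ℕ) : ℝ) := by
    rw [inv_mul_lt_iff₀ hpos] at h3
    linarith
  have h7 := pow_le_pow_left₀ (norm_nonneg _) h6 2
  push_cast at h7 ⊢
  nlinarith [sq_nonneg ((N : ℝ) + 1)]

end Unitary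

/-- Removing the fixed vectors: a unitary operator with a unit vector `x` that is almost invariant
under `U ^ n`, `n ∈ Q`, and with a small average, gives a unitary operator without nonzero fixed
vectors with an almost invariant unit vector. -/
lemma exists_without_fixed {H : Type} [NormedAddCommGroup H] [InnerProductSpace ℂ H]
    [CompleteSpace H] (U : H ≃ₗᵢ[ℂ] H) {x : H} (hx : ‖x‖ = 1) {N : ℕ}
    (hN : dsum (coef U x) (N + 1) ≤ ((N : ℝ) + 1) ^ 2 / 2) :
    ∃ (V : H ≃ₗᵢ[ℂ] H) (y : H), (∀ w, V w = w → w = 0) ∧ ‖y‖ = 1 ∧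
      ∀ n : ℤ, ‖(V ^ n) y - y‖ ≤ 2 * ‖(U ^ n) x - x‖ := by
  let K : Submodule ℂ H :=
    LinearMap.eqLocus (U.toLinearEquiv : H →ₗ[ℂ] H) (LinearMap.id : H →ₗ[ℂ] H)
  have hK : ∀ z, z ∈ K ↔ U z = z := fun z => Iff.rfl
  have hKcl : IsClosed (K : Set H) := isClosed_eq U.continuous continuous_id
  have hKc : CompleteSpace K := hKcl.completeSpace_coe
  -- powers of `U` on `K`
  have hKpow : ∀ z ∈ K, ∀ n : ℤ, (U ^ n) z = z := by
    intro z hz n
    induction n using Int.induction_on with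
    | zero => rfl
    | succ n ih =>
      rw [add_comm, zpow_one_add]
      change U ((U ^ (n : ℤ)) z) = z
      rw [ih]
      exact (hK z).1 hz
    | pred n ih =>
      have h1 : U ^ (-(n : ℤ)) = U * U ^ (-(n : ℤ) - 1) := by
        rw [← zpow_one_add]
        congr 1
        ring
      refine U.injective ?_
      rw [(hK z).1 hz]
      rw [h1] at ih
      exact ih
  obtain ⟨a, ha, b, hb, hab⟩ := K.exists_add_mem_mem_orthogonal x
  -- the norm of the projection
  have hnorm : ‖a‖ ^ 2 ≤ 1 / 2 := by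
    have h1 : inner ℂ a (∑ n ∈ Finset.range (N + 1), (U ^ (n : ℤ)) x) =
        ((N + 1 : ℕ) : ℂ) * (‖a‖ : ℂ) ^ 2 := by
      rw [inner_sum]
      have h2 : ∀ n ∈ Finset.range (N + 1), inner ℂ a ((U ^ (n : ℤ)) x) = (‖a‖ : ℂ) ^ 2 := by
        intro n _
        nth_rewrite 1 [← hKpow a ha n]
        rw [LinearIsometryEquiv.inner_map_map, hab, inner_add_right,
          Submodule.inner_right_of_mem_orthogonal ha hb, add_zero, inner_self_eq_norm_sq_to_K]
        rfl
      rw [Finset.sum_congr rfl h2, Finset.sum_const, Finset.card_range, nsmul_eq_mul]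
    have h3 := norm_inner_le_norm (𝕜 := ℂ) a (∑ n ∈ Finset.range (N + 1), (U ^ (n : ℤ)) x)
    rw [h1, norm_mul, Complex.norm_natCast, norm_pow, Complex.norm_real, norm_norm] at h3
    have h4 := norm_sum_sq U x (N + 1)
    have h5 : ‖∑ n ∈ Finset.range (N + 1), (U ^ (n : ℤ)) x‖ ^ 2 ≤ ((N : ℝ) + 1) ^ 2 / 2 := by
      rw [h4]; exact hN
    set S := ‖∑ n ∈ Finset.range (N + 1), (U ^ (n : ℤ)) x‖ with hS
    have hS0 : 0 ≤ S := norm_nonneg _
    have ha0 : 0 ≤ ‖a‖ := norm_nonneg _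
    have hN1 : (0 : ℝ) < (N : ℝ) + 1 := by positivity
    push_cast at h3
    rcases ha0.eq_or_lt with h0 | h0
    · rw [← h0]; norm_num
    · have h6 : ((N : ℝ) + 1) * ‖a‖ ≤ S := by
        have h7 : ((N : ℝ) + 1) * ‖a‖ * ‖a‖ ≤ S * ‖a‖ := by
          calc ((N : ℝ) + 1) * ‖a‖ * ‖a‖ = ((N : ℝ) + 1) * ‖a‖ ^ 2 := by ring
            _ ≤ ‖a‖ * S := h3
            _ = S * ‖a‖ := by ring
        exact le_of_mul_le_mul_right h7 h0
      have h8 : (((N : ℝ) + 1) * ‖a‖) ^ 2 ≤ S ^ 2 := pow_le_pow_left₀ (by positivity) h6 2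
      have h9 : ((N : ℝ) + 1) ^ 2 * ‖a‖ ^ 2 ≤ ((N : ℝ) + 1) ^ 2 * (1 / 2) := by
        calc ((N : ℝ) + 1) ^ 2 * ‖a‖ ^ 2 = (((N : ℝ) + 1) * ‖a‖) ^ 2 := by ring
          _ ≤ S ^ 2 := h8
          _ ≤ ((N : ℝ) + 1) ^ 2 / 2 := h5
          _ = ((N : ℝ) + 1) ^ 2 * (1 / 2) := by ring
      exact le_of_mul_le_mul_left h9 (by positivity)
  have hb2 : ‖b‖ ^ 2 = 1 - ‖a‖ ^ 2 := by
    have h1 : ‖x‖ ^ 2 = ‖a‖ ^ 2 + ‖b‖ ^ 2 := by
      rw [hab, sq, sq, sq]
      exact norm_add_sq_eq_norm_sq_add_norm_sq_of_inner_eq_zero a b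
        (Submodule.inner_right_of_mem_orthogonal ha hb)
    rw [hx] at h1
    linarith
  have hb1 : 1 / 2 ≤ ‖b‖ := by
    by_contra hcon
    push Not at hcon
    have h1 : ‖b‖ ^ 2 < (1 / 2) ^ 2 := pow_lt_pow_left₀ hcon (norm_nonneg _) two_ne_zero
    linarith
  have hb0 : 0 < ‖b‖ := by linarith
  -- the new operator
  let V : H ≃ₗᵢ[ℂ] H := U * Kᗮ.reflection
  have hVorth : ∀ z ∈ Kᗮ, V z = U z := fun z hz => by
    change U (Kᗮ.reflection z) = U z
    rw [Submodule.reflection_mem_subspace_eq_self hz]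
  have hVK : ∀ z ∈ K, V z = - z := fun z hz => by
    change U (Kᗮ.reflection z) = - z
    rw [Submodule.reflection_mem_subspace_orthogonal_precomplement_eq_neg hz, map_neg,
      (hK z).1 hz]
  have horth : ∀ z, z ∈ Kᗮ ↔ U z ∈ Kᗮ := by
    intro z
    rw [Submodule.mem_orthogonal, Submodule.mem_orthogonal]
    refine forall₂_congr fun w hw => ?_
    nth_rewrite 2 [← (hK w).1 hw]
    rw [LinearIsometryEquiv.inner_map_map]
  have hVpow : ∀ z ∈ Kᗮ, ∀ n : ℤ, (V ^ n) z = (U ^ n) z ∧ (U ^ n) z ∈ Kᗮ := by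
    intro z hz n
    induction n using Int.induction_on with
    | zero => exact ⟨rfl, hz⟩
    | succ n ih =>
      obtain ⟨ih1, ih2⟩ := ih
      rw [add_comm, zpow_one_add, zpow_one_add]
      refine ⟨?_, ?_⟩
      · change V ((V ^ (n : ℤ)) z) = U ((U ^ (n : ℤ)) z)
        rw [ih1, hVorth _ ih2]
      · change U ((U ^ (n : ℤ)) z) ∈ Kᗮ
        exact (horth _).1 ih2
    | pred n ih =>
      obtain ⟨ih1, ih2⟩ := ih
      have h1 : U ^ (-(n : ℤ)) = U * U ^ (-(n : ℤ) - 1) := by
        rw [← zpow_one_add]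
        congr 1
        ring
      have h2 : V ^ (-(n : ℤ)) = V * V ^ (-(n : ℤ) - 1) := by
        rw [← zpow_one_add]
        congr 1
        ring
      have h3 : (U ^ (-(n : ℤ) - 1)) z ∈ Kᗮ := by
        rw [horth]
        rw [h1] at ih2
        exact ih2
      refine ⟨V.injective ?_, h3⟩
      rw [hVorth _ h3]
      rw [h1, h2] at ih1
      exact ih1
  refine ⟨V, (‖b‖⁻¹ : ℂ) • b, ?_, ?_, ?_⟩
  · intro w hw
    obtain ⟨c, hc, d, hd, hcd⟩ := K.exists_add_mem_mem_orthogonal w
    have h1 : V w = - c + U d := by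
      rw [hcd, map_add, hVK c hc, hVorth d hd]
    rw [h1, hcd] at hw
    have h2 : c + c = U d - d := by
      have h3 : U d = c + d + c := by rw [← hw]; abel
      rw [h3]; abel
    have h4 : c + c ∈ Kᗮ := by
      rw [h2]
      exact Kᗮ.sub_mem ((horth d).1 hd) hd
    have h5 : c + c = 0 := by
      have h6 := Submodule.inner_right_of_mem_orthogonal (K.add_mem hc hc) h4
      exact inner_self_eq_zero.1 h6
    have h6 : c = 0 := by
      have h7 : (2 : ℂ) • c = 0 := by rw [two_smul]; exact h5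
      exact (smul_eq_zero.1 h7).resolve_left two_ne_zero
    rw [h5] at h2
    have h7 : d ∈ K := (hK d).2 (sub_eq_zero.1 h2.symm)
    have h8 : d = 0 := by
      have h6 := Submodule.inner_right_of_mem_orthogonal h7 hd
      exact inner_self_eq_zero.1 h6
    rw [hcd, h6, h8, add_zero]
  · rw [norm_smul, norm_inv, Complex.norm_real, norm_norm]
    exact inv_mul_cancel₀ hb0.ne'
  · intro n
    have h1 : (U ^ n) b - b = (U ^ n) x - x := by
      have h2 : (U ^ n) x = a + (U ^ n) b := by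
        rw [hab, map_add, hKpow a ha n]
      rw [h2, hab]
      abel
    have h3 : (V ^ n) ((‖b‖⁻¹ : ℂ) • b) - (‖b‖⁻¹ : ℂ) • b = (‖b‖⁻¹ : ℂ) • ((U ^ n) x - x) := by
      rw [map_smul, (hVpow b hb n).1, ← smul_sub, h1]
    rw [h3, norm_smul, norm_inv, Complex.norm_real, norm_norm]
    refine mul_le_mul_of_nonneg_right ?_ (norm_nonneg _)
    rw [inv_le_comm₀ hb0 (by norm_num)]
    linarith

/-! ## The Borel description -/

/-- The compact space of normalized positive definite functions. -/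
lemma isCompact_isPD : IsCompact {φ : ℤ → ℂ | IsPD φ} := by
  have hev : ∀ n : ℤ, Continuous fun φ : ℤ → ℂ => φ n := fun n =>
    continuous_apply (A := fun _ => ℂ) n
  have hform : ∀ f : ℤ →₀ ℂ, Continuous fun φ : ℤ → ℂ => form φ f f := by
    intro f
    unfold form Finsupp.sum
    refine continuous_finsetSum _ fun m _ => continuous_finsetSum _ fun n _ => ?_
    exact continuous_const.mul (hev (n - m))
  have h : {φ : ℤ → ℂ | IsPD φ} = (Set.pi univ fun _ : ℤ => Metric.closedBall (0 : ℂ) 1) ∩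
      ({φ | φ 0 = 1} ∩ ((⋂ n : ℤ, {φ | φ (-n) = conj (φ n)}) ∩
        ⋂ f : ℤ →₀ ℂ, {φ | 0 ≤ (form φ f f).re})) := by
    ext φ
    constructor
    · intro hφ
      refine ⟨fun n _ => ?_, hφ.one, mem_iInter.2 hφ.herm, mem_iInter.2 hφ.pos⟩
      rw [mem_closedBall_zero_iff]
      exact hφ.bound n
    · rintro ⟨h1, h2, h3, h4⟩
      refine ⟨h2, fun n => mem_iInter.1 h3 n, fun f => mem_iInter.1 h4 f, fun n => ?_⟩
      have := h1 n (mem_univ n)
      rwa [mem_closedBall_zero_iff] at this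
  rw [h]
  refine (isCompact_univ_pi fun _ => isCompact_closedBall (0 : ℂ) 1).inter_right ?_
  refine (isClosed_eq (hev 0) continuous_const).inter (IsClosed.inter ?_ ?_)
  · exact isClosed_iInter fun n => isClosed_eq (hev (-n)) (Complex.continuous_conj.comp (hev n))
  · exact isClosed_iInter fun f => isClosed_le continuous_const
      (Complex.continuous_re.comp (hform f))

/-- The closed set of all codes of sets that are almost invariant for a positive definite function
with small average. -/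
def Slice (k N : ℕ) : Set (ℤ → Bool) :=
  {q | ∃ φ : ℤ → ℂ, IsPD φ ∧ (∀ n, q n = true → 2 - 2 * (φ n).re ≤ (1 / ((k : ℝ) + 1)) ^ 2) ∧
    dsum φ (N + 1) ≤ ((N : ℝ) + 1) ^ 2 / 2}

lemma isClosed_slice (k N : ℕ) : IsClosed (Slice k N) := by
  have hev : ∀ n : ℤ, Continuous fun p : (ℤ → Bool) × (ℤ → ℂ) => (p.2 n).re := fun n =>
    Complex.continuous_re.comp ((continuous_apply (A := fun _ => ℂ) n).comp continuous_snd)
  have hcl : IsClosed {p : (ℤ → Bool) × (ℤ → ℂ) |
      (∀ n, p.1 n = true → 2 - 2 * (p.2 n).re ≤ (1 / ((k : ℝ) + 1)) ^ 2) ∧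
        dsum p.2 (N + 1) ≤ ((N : ℝ) + 1) ^ 2 / 2} := by
    refine IsClosed.inter ?_ ?_
    · have h1 : {p : (ℤ → Bool) × (ℤ → ℂ) |
          ∀ n, p.1 n = true → 2 - 2 * (p.2 n).re ≤ (1 / ((k : ℝ) + 1)) ^ 2} =
          ⋂ n : ℤ, ({p | p.1 n = false} ∪ {p | 2 - 2 * (p.2 n).re ≤ (1 / ((k : ℝ) + 1)) ^ 2}) := by
        ext p
        rw [mem_iInter]
        refine forall_congr' fun n => ?_
        constructor
        · intro h
          by_cases hn : p.1 n = true
          · exact Or.inr (h hn)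
          · exact Or.inl (Bool.eq_false_of_not_eq_true hn)
        · rintro (h | h) hn
          · have h' : p.1 n = false := h
            rw [h'] at hn
            exact absurd hn Bool.false_ne_true
          · exact h
      have h2 : IsClosed {p : (ℤ → Bool) × (ℤ → ℂ) |
          ∀ n, p.1 n = true → 2 - 2 * (p.2 n).re ≤ (1 / ((k : ℝ) + 1)) ^ 2} := by
        rw [h1]
        refine isClosed_iInter fun n => IsClosed.union ?_ ?_
        · exact isClosed_eq ((continuous_apply (A := fun _ => Bool) n).comp continuous_fst)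
            continuous_const
        · exact isClosed_le (continuous_const.sub (continuous_const.mul (hev n)))
            continuous_const
      exact h2
    · have h3 : Continuous fun p : (ℤ → Bool) × (ℤ → ℂ) => dsum p.2 (N + 1) := by
        unfold dsum
        exact continuous_finsetSum _ fun m _ => continuous_finsetSum _ fun n _ => hev _
      exact isClosed_le h3 continuous_const
  have hcomp : IsCompact ((univ ×ˢ {φ : ℤ → ℂ | IsPD φ}) ∩ {p : (ℤ → Bool) × (ℤ → ℂ) |
      (∀ n, p.1 n = true → 2 - 2 * (p.2 n).re ≤ (1 / ((k : ℝ) + 1)) ^ 2) ∧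
        dsum p.2 (N + 1) ≤ ((N : ℝ) + 1) ^ 2 / 2}) :=
    (isCompact_univ.prod isCompact_isPD).inter_right hcl
  have heq : Slice k N = Prod.fst '' ((univ ×ˢ {φ : ℤ → ℂ | IsPD φ}) ∩
      {p : (ℤ → Bool) × (ℤ → ℂ) |
      (∀ n, p.1 n = true → 2 - 2 * (p.2 n).re ≤ (1 / ((k : ℝ) + 1)) ^ 2) ∧
        dsum p.2 (N + 1) ≤ ((N : ℝ) + 1) ^ 2 / 2}) := by
    ext q
    constructor
    · rintro ⟨φ, h1, h2, h3⟩
      exact ⟨(q, φ), ⟨⟨mem_univ q, h1⟩, h2, h3⟩, rfl⟩
    · rintro ⟨⟨q', φ⟩, ⟨⟨-, h1⟩, h2, h3⟩, rfl⟩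
      exact ⟨φ, h1, h2, h3⟩
  rw [heq]
  exact (hcomp.image continuous_fst).isClosed

/-- The description of the sets that are not Kazhdan sets. -/
lemma not_isKazhdan_iff (q : ℤ → Bool) : ¬ IsKazhdan (toSet q) ↔ ∀ k, ∃ N, q ∈ Slice k N := by
  constructor
  · intro h k
    unfold IsKazhdan at h
    push Not at h
    obtain ⟨H, i1, i2, i3, U, ⟨x, hx, δ, hδ, hxδ⟩, hfix⟩ := h (1 / ((k : ℝ) + 1)) (by positivity)
    obtain ⟨N, hN⟩ := exists_small_average U x fun y hy => by
      by_contra hne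
      exact hfix y hne hy
    refine ⟨N, coef U x, isPD_coef U hx, fun n hn => ?_, hN⟩
    rw [← norm_sub_sq_coef U hx]
    exact pow_le_pow_left₀ (norm_nonneg _) ((hxδ n hn).trans hδ.le) 2
  · intro h hK
    obtain ⟨ε, hε, hK⟩ := hK
    obtain ⟨k, hk⟩ := exists_nat_one_div_lt (half_pos hε)
    obtain ⟨N, φ, hφ, h1, h2⟩ := h k
    obtain ⟨H, i1, i2, i3, U, x, hU⟩ := gns hφ
    have hcoef : coef U x = φ := funext hU
    have hx : ‖x‖ = 1 := by
      have h3 := hU 0
      rw [zpow_zero] at h3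
      change inner ℂ x x = φ 0 at h3
      rw [inner_self_eq_norm_sq_to_K, hφ.one] at h3
      have h4 : ‖x‖ ^ 2 = 1 := by
        have h5 : ((‖x‖ ^ 2 : ℝ) : ℂ) = ((1 : ℝ) : ℂ) := by
          push_cast
          exact h3
        exact Complex.ofReal_injective h5
      nlinarith [norm_nonneg x]
    rw [← hcoef] at h1 h2
    obtain ⟨V, y, hV, hy, hVy⟩ := exists_without_fixed U hx h2
    have hyn : ∀ n ∈ toSet q, ‖(V ^ n) y - y‖ ≤ 2 * (1 / ((k : ℝ) + 1)) := by
      intro n hn
      refine (hVy n).trans ?_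
      have h3 := h1 n hn
      rw [← norm_sub_sq_coef U hx] at h3
      have h4 : ‖(U ^ n) x - x‖ ≤ 1 / ((k : ℝ) + 1) :=
        (pow_le_pow_iff_left₀ (norm_nonneg _) (by positivity) two_ne_zero).1 h3
      linarith
    obtain ⟨w, hw, hVw⟩ := hK H V ⟨y, hy, 2 * (1 / ((k : ℝ) + 1)), by linarith, hyn⟩
    exact hw (hV w hVw)

/-- The Kazhdan sets form a Borel set. -/
lemma measurableSet_kazhdan :
    @MeasurableSet (ℤ → Bool) (borel (ℤ → Bool)) {q | IsKazhdan (toSet q)} := by
  let _ : MeasurableSpace (ℤ → Bool) := borel (ℤ → Bool)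
  have _ : BorelSpace (ℤ → Bool) := ⟨rfl⟩
  have h : {q : ℤ → Bool | IsKazhdan (toSet q)} = (⋂ k, ⋃ N, Slice k N)ᶜ := by
    ext q
    rw [mem_compl_iff, mem_iInter]
    simp only [mem_iUnion]
    rw [← not_isKazhdan_iff, not_not]
    rfl
  rw [h]
  exact (MeasurableSet.iInter fun k => MeasurableSet.iUnion fun N =>
    (isClosed_slice k N).measurableSet).compl

/-- The generating sets form an open set. -/
lemma isOpen_generating :
    IsOpen {q : ℤ → Bool | AddSubgroup.closure (toSet q) = ⊤} := by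
  rw [isOpen_iff_mem_nhds]
  intro q hq
  have h1 : (1 : ℤ) ∈ AddSubgroup.closure (toSet q) := by
    rw [show AddSubgroup.closure (toSet q) = ⊤ from hq]
    exact AddSubgroup.mem_top 1
  -- finitely many elements of the set already generate
  have hfin : ∀ m ∈ AddSubgroup.closure (toSet q), ∃ F : Finset ℤ, (F : Set ℤ) ⊆ toSet q ∧
      m ∈ AddSubgroup.closure (F : Set ℤ) := by
    classical
    intro m hm
    induction hm using AddSubgroup.closure_induction with
    | mem x hx =>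
      refine ⟨{x}, by simpa using hx, AddSubgroup.subset_closure (by simp)⟩
    | zero => exact ⟨∅, by simp, AddSubgroup.zero_mem _⟩
    | add x y _ _ ihx ihy =>
      obtain ⟨F1, hF1, h1⟩ := ihx
      obtain ⟨F2, hF2, h2⟩ := ihy
      refine ⟨F1 ∪ F2, by rw [Finset.coe_union]; exact union_subset hF1 hF2,
        AddSubgroup.add_mem _ (AddSubgroup.closure_mono (by simp) h1)
          (AddSubgroup.closure_mono (by simp) h2)⟩
    | neg x _ ihx =>
      obtain ⟨F1, hF1, h1⟩ := ihx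
      exact ⟨F1, hF1, AddSubgroup.neg_mem _ h1⟩
  obtain ⟨F, hF, h2⟩ := hfin 1 h1
  have h3 : {q' : ℤ → Bool | ∀ n ∈ F, q' n = true} ∈ 𝓝 q := by
    have h4 : {q' : ℤ → Bool | ∀ n ∈ F, q' n = true} = ⋂ n ∈ F, {q' | q' n = true} := by
      ext q'
      simp
    rw [h4]
    refine (Filter.biInter_finset_mem F).2 fun n hn => ?_
    have h5 : IsOpen {q' : ℤ → Bool | q' n = true} :=
      (isOpen_discrete ({true} : Set Bool)).preimage (continuous_apply (A := fun _ => Bool) n)
    exact h5.mem_nhds (hF hn)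
  refine Filter.mem_of_superset h3 fun q' hq' => ?_
  have h6 : (1 : ℤ) ∈ AddSubgroup.closure (toSet q') :=
    AddSubgroup.closure_mono (fun n hn => hq' n hn) h2
  change AddSubgroup.closure (toSet q') = ⊤
  rw [eq_top_iff]
  intro m _
  have h7 := (AddSubgroup.closure (toSet q')).zsmul_mem h6 m
  simpa using h7

/-- **Main result.** Both the family of Kazhdan subsets of the integers and the family of generating
subsets that are not Kazhdan sets are Borel subsets of `{0,1} ^ ℤ`. -/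
theorem result :
    @MeasurableSet (ℤ → Bool) (borel (ℤ → Bool)) {q | IsKazhdan (toSet q)} ∧
    @MeasurableSet (ℤ → Bool) (borel (ℤ → Bool))
      {q | AddSubgroup.closure (toSet q) = ⊤ ∧ ¬ IsKazhdan (toSet q)} := by
  refine ⟨measurableSet_kazhdan, ?_⟩
  let _ : MeasurableSpace (ℤ → Bool) := borel (ℤ → Bool)
  have _ : BorelSpace (ℤ → Bool) := ⟨rfl⟩
  exact isOpen_generating.measurableSet.inter (MeasurableSet.compl measurableSet_kazhdan)

end Pool.Agent.Results.MP_6f1842_lc.KazhdanBorel
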